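import Pool.Agent.H840.MX.Stm2
import Pool.Agent.H549.MX.Bez

/-!
# A Zariski neighbourhood of the eleven points (S_GC), helper824
-/

set_option autoImplicit false

namespace Pool.Agent.H824.MX

open MvPolynomial Pool.Agent.T2H40.MI Pool.Agent.H840.MX

/-- the index set with fifteen elements -/
abbrev I15 := Fin 11 ⊕ Fin 4

/-- quartic forms -/
abbrev V4 := homogeneousSubmodule (Fin 3) ℂ 4

/-- polynomials in the coordinates of eleven points -/
abbrev R11 := MvPolynomial (Fin 11 × Fin 3) ℂ

theorem finrank_V4 : Module.finrank ℂ V4 = 11 + 4 := by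
  rw [Pool.Agent.H549.MX.finrank_hom]
  decide

/-- a basis of the quartic forms -/
noncomputable def bas : Module.Basis I15 ℂ V4 :=
  (Module.finBasisOfFinrankEq ℂ V4 finrank_V4).reindex finSumFinEquiv.symm

/-- the point of the space of the coordinates -/
def pt (P : Fin 11 → Fin 3 → ℂ) : Fin 11 × Fin 3 → ℂ := fun x => P x.1 x.2

/-- a polynomial in the coordinates of the `i`-th point -/
noncomputable def rn (i : Fin 11) : S →ₐ[ℂ] R11 := rename fun k => (i, k)

theorem eval_rn (P : Fin 11 → Fin 3 → ℂ) (i : Fin 11) (f : S) :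
    eval (pt P) (rn i f) = eval (P i) f := by
  unfold rn
  rw [eval_rename]
  rfl

/-- the generic matrix -/
noncomputable def mat (w : V4 →ₗ[ℂ] (Fin 4 → ℂ)) : Matrix I15 I15 R11 :=
  Matrix.of fun r m => Sum.elim (fun i => rn i (bas m : S)) (fun j => C (w (bas m) j)) r

/-- the matrix at the points `P` -/
noncomputable def matE (w : V4 →ₗ[ℂ] (Fin 4 → ℂ)) (P : Fin 11 → Fin 3 → ℂ) : Matrix I15 I15 ℂ :=
  (eval (pt P)).mapMatrix (mat w)

theorem matE_inl (w : V4 →ₗ[ℂ] (Fin 4 → ℂ)) (P : Fin 11 → Fin 3 → ℂ) (i : Fin 11) (m : I15) :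
    matE w P (Sum.inl i) m = eval (P i) (bas m : S) := by
  simp only [matE, mat, RingHom.mapMatrix_apply, Matrix.map_apply, Matrix.of_apply, Sum.elim_inl]
  exact eval_rn P i _

theorem matE_inr (w : V4 →ₗ[ℂ] (Fin 4 → ℂ)) (P : Fin 11 → Fin 3 → ℂ) (j : Fin 4) (m : I15) :
    matE w P (Sum.inr j) m = w (bas m) j := by
  simp only [matE, mat, RingHom.mapMatrix_apply, Matrix.map_apply, Matrix.of_apply, Sum.elim_inr]
  exact eval_C _

theorem det_matE (w : V4 →ₗ[ℂ] (Fin 4 → ℂ)) (P : Fin 11 → Fin 3 → ℂ) :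
    eval (pt P) (mat w).det = (matE w P).det := by
  unfold matE
  exact RingHom.map_det _ _

/-- the coefficients of the generic quartic -/
noncomputable def cf (w : V4 →ₗ[ℂ] (Fin 4 → ℂ)) (m : I15) : R11 := (mat w).adjugate m (Sum.inr 3)

theorem eval_cf (w : V4 →ₗ[ℂ] (Fin 4 → ℂ)) (P : Fin 11 → Fin 3 → ℂ) (m : I15) :
    eval (pt P) (cf w m) = (matE w P).adjugate m (Sum.inr 3) := by
  unfold matE cf
  rw [← RingHom.map_adjugate, RingHom.mapMatrix_apply, Matrix.map_apply]

/-- the quartic through the points `P` -/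
noncomputable def qf (w : V4 →ₗ[ℂ] (Fin 4 → ℂ)) (P : Fin 11 → Fin 3 → ℂ) : V4 :=
  ∑ m, (matE w P).adjugate m (Sum.inr 3) • bas m

theorem qf_coe (w : V4 →ₗ[ℂ] (Fin 4 → ℂ)) (P : Fin 11 → Fin 3 → ℂ) :
    (qf w P : S) = ∑ m, (matE w P).adjugate m (Sum.inr 3) • (bas m : S) := by
  unfold qf
  simp only [Submodule.coe_sum, Submodule.coe_smul]

theorem eval_qf (w : V4 →ₗ[ℂ] (Fin 4 → ℂ)) (P : Fin 11 → Fin 3 → ℂ) (q : Fin 3 → ℂ) :
    eval q (qf w P : S) = ∑ m, (matE w P).adjugate m (Sum.inr 3) * eval q (bas m : S) := by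
  rw [qf_coe, map_sum]
  simp [smul_eval]

theorem grad_qf (w : V4 →ₗ[ℂ] (Fin 4 → ℂ)) (P : Fin 11 → Fin 3 → ℂ) (q : Fin 3 → ℂ) (k : Fin 3) :
    grad (qf w P : S) q k =
      ∑ m, (matE w P).adjugate m (Sum.inr 3) * eval q (pderiv k (bas m : S)) := by
  unfold grad
  rw [qf_coe, map_sum, map_sum]
  simp [smul_eval]

/-- the gradient of the generic quartic at the `i`-th point -/
noncomputable def gd (w : V4 →ₗ[ℂ] (Fin 4 → ℂ)) (i : Fin 11) (k : Fin 3) : R11 :=
  ∑ m, cf w m * rn i (pderiv k (bas m : S))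

theorem eval_gd (w : V4 →ₗ[ℂ] (Fin 4 → ℂ)) (P : Fin 11 → Fin 3 → ℂ) (i : Fin 11) (k : Fin 3) :
    eval (pt P) (gd w i k) = grad (qf w P : S) (P i) k := by
  unfold gd
  rw [grad_qf, map_sum]
  apply Finset.sum_congr rfl
  intro m _
  rw [map_mul, eval_cf, eval_rn]

/-- the transversality determinant at the `i`-th point -/
noncomputable def dp (F : S) (w : V4 →ₗ[ℂ] (Fin 4 → ℂ)) (r : Fin 11 → Fin 3 → ℂ) (i : Fin 11) : R11 :=
  (Matrix.of ![fun k => C (r i k), fun k => rn i (pderiv k F), fun k => gd w i k]).det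

theorem eval_dp (F : S) (w : V4 →ₗ[ℂ] (Fin 4 → ℂ)) (r : Fin 11 → Fin 3 → ℂ)
    (P : Fin 11 → Fin 3 → ℂ) (i : Fin 11) : eval (pt P) (dp F w r i) =
      (Matrix.of ![r i, grad F (P i), grad (qf w P : S) (P i)]).det := by
  unfold dp
  rw [Matrix.det_fin_three, Matrix.det_fin_three]
  simp only [map_sub, map_add, map_mul, Matrix.of_apply, Matrix.cons_val_zero, Matrix.cons_val_one,
    Matrix.cons_val, eval_C, eval_rn, eval_gd, grad]

/-- the polynomial -/
noncomputable def Phi (F : S) (w : V4 →ₗ[ℂ] (Fin 4 → ℂ)) (r : Fin 11 → Fin 3 → ℂ) : R11 :=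
  (mat w).det * ∏ i, dp F w r i

theorem eval_Phi (F : S) (w : V4 →ₗ[ℂ] (Fin 4 → ℂ)) (r : Fin 11 → Fin 3 → ℂ)
    (P : Fin 11 → Fin 3 → ℂ) : eval (pt P) (Phi F w r) = (matE w P).det *
      ∏ i, (Matrix.of ![r i, grad F (P i), grad (qf w P : S) (P i)]).det := by
  unfold Phi
  rw [map_mul, map_prod, det_matE]
  simp_rw [eval_dp]

/-- the quartic vanishes at the points -/
theorem qf_zero (w : V4 →ₗ[ℂ] (Fin 4 → ℂ)) (P : Fin 11 → Fin 3 → ℂ) (i : Fin 11) :
    eval (P i) (qf w P : S) = 0 := by
  have h1 := congrFun (congrFun (Matrix.mul_adjugate (matE w P)) (Sum.inl i)) (Sum.inr 3)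
  rw [Matrix.mul_apply] at h1
  rw [eval_qf]
  have h2 : ∑ m, (matE w P).adjugate m (Sum.inr 3) * eval (P i) (bas m : S) =
      ∑ m, matE w P (Sum.inl i) m * (matE w P).adjugate m (Sum.inr 3) := by
    apply Finset.sum_congr rfl
    intro m _
    rw [matE_inl, mul_comm]
  rw [h2, h1]
  simp

theorem pt_ext (P : Fin 11 → Fin 3 → ℂ) : (fun x : Fin 11 × Fin 3 => P x.1 x.2) = pt P := rfl

/-- the nonvanishing of the polynomial gives the quartic -/
theorem eleven_of_Phi {F : S} (hF : F.IsHomogeneous 3) (hirr : Irreducible F)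
    (w : V4 →ₗ[ℂ] (Fin 4 → ℂ)) (r : Fin 11 → Fin 3 → ℂ) (P : Fin 11 → Fin 3 → ℂ)
    (hzero : ∀ i, eval (P i) F = 0) (h : eval (pt P) (Phi F w r) ≠ 0) :
    Eleven F (qf w P : S) P := by
  rw [eval_Phi] at h
  have hdet : (matE w P).det ≠ 0 := left_ne_zero_of_mul h
  have hdp : ∀ i, (Matrix.of ![r i, grad F (P i), grad (qf w P : S) (P i)]).det ≠ 0 := by
    intro i
    exact Finset.prod_ne_zero_iff.mp (right_ne_zero_of_mul h) i (Finset.mem_univ i)
  have hom : (qf w P : S).IsHomogeneous 4 := (mem_homogeneousSubmodule _ _).1 (qf w P).2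
  -- transversality
  have htr : ∀ i, ∀ α β : ℂ, α • grad F (P i) + β • grad (qf w P : S) (P i) = 0 →
      α = 0 ∧ β = 0 := by
    intro i α β hαβ
    by_contra hne
    apply hdp i
    have hv : ![0, α, β] ≠ (0 : Fin 3 → ℂ) := by
      intro h0
      apply hne
      exact ⟨congrFun h0 1, congrFun h0 2⟩
    apply Matrix.exists_vecMul_eq_zero_iff.mp
    refine ⟨![0, α, β], hv, ?_⟩
    funext k
    have h1 := congrFun hαβ k
    simp only [Pi.add_apply, Pi.smul_apply, smul_eq_mul, Pi.zero_apply] at h1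
    simp only [Matrix.vecMul, dotProduct, Fin.sum_univ_three, Matrix.of_apply,
      Matrix.cons_val_zero, Matrix.cons_val_one, Matrix.cons_val, Pi.zero_apply, zero_mul, zero_add]
    exact h1
  refine ⟨hF, hom, hirr, ?_, ?_, ?_, hzero, fun i => qf_zero w P i, htr⟩
  · -- `F` does not divide
    rintro ⟨L, hL⟩
    have h1 : (eval (P 0) L) • grad F (P 0) + (-1 : ℂ) • grad (qf w P : S) (P 0) = 0 := by
      funext k
      simp only [Pi.add_apply, Pi.smul_apply, smul_eq_mul, Pi.zero_apply, grad]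
      rw [hL, Derivation.leibniz]
      simp only [smul_eq_mul, map_add, map_mul, hzero 0]
      ring
    have h2 := (htr 0 _ _ h1).2
    norm_num at h2
  · -- nonzero
    intro i h0
    have h1 : (0 : ℂ) • grad F (P i) + (1 : ℂ) • grad (qf w P : S) (P i) = 0 := by
      funext k
      simp only [Pi.add_apply, Pi.smul_apply, smul_eq_mul, Pi.zero_apply, grad, zero_mul, one_mul,
        zero_add]
      have h2 : (pderiv k (qf w P : S)).IsHomogeneous 3 := hom.pderiv
      have h3 := eval_smul_hom h2 0 (P i)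
      rw [h0] at h3 ⊢
      simpa using h3
    have h2 := (htr i _ _ h1).2
    norm_num at h2
  · -- different
    intro i j hij t ht
    have e1 := congrFun (congrFun (Matrix.mul_adjugate (matE w P)) (Sum.inl i)) (Sum.inl i)
    have e2 := congrFun (congrFun (Matrix.mul_adjugate (matE w P)) (Sum.inl j)) (Sum.inl i)
    rw [Matrix.mul_apply] at e1 e2
    have h1 : ∑ m, matE w P (Sum.inl i) m * (matE w P).adjugate m (Sum.inl i) =
        t ^ 4 * ∑ m, matE w P (Sum.inl j) m * (matE w P).adjugate m (Sum.inl i) := by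
      rw [Finset.mul_sum]
      apply Finset.sum_congr rfl
      intro m _
      rw [matE_inl, matE_inl, ht, eval_smul_hom ((mem_homogeneousSubmodule _ _).1 (bas m).2)]
      ring
    rw [e1, e2] at h1
    have hji : (Sum.inl j : I15) ≠ Sum.inl i := by
      intro h
      exact hij (Sum.inl_injective h).symm
    rw [Matrix.smul_apply, Matrix.smul_apply, Matrix.one_apply_eq, Matrix.one_apply_ne hji] at h1
    simp at h1
    exact hdet h1

/-- four quartic forms through the eleven points -/
noncomputable def vv {F g : S} (hF : F.IsHomogeneous 3) (hg : g.IsHomogeneous 4) : Fin 4 → V4 :=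
  fun j => Fin.cases (motive := fun _ => V4) ⟨g, (mem_homogeneousSubmodule _ _).2 hg⟩
    (fun k => ⟨X k * F, (mem_homogeneousSubmodule _ _).2 ((isHomogeneous_X ℂ k).mul hF)⟩) (j + 1)

theorem vv3 {F g : S} (hF : F.IsHomogeneous 3) (hg : g.IsHomogeneous 4) :
    (vv hF hg 3 : S) = g := rfl

theorem vv0 {F g : S} (hF : F.IsHomogeneous 3) (hg : g.IsHomogeneous 4) :
    (vv hF hg 0 : S) = X 0 * F := rfl

theorem vv1 {F g : S} (hF : F.IsHomogeneous 3) (hg : g.IsHomogeneous 4) :
    (vv hF hg 1 : S) = X 1 * F := rfl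

theorem vv2 {F g : S} (hF : F.IsHomogeneous 3) (hg : g.IsHomogeneous 4) :
    (vv hF hg 2 : S) = X 2 * F := rfl

theorem lin_eval_single (c : Fin 3 → ℂ) (k : Fin 3) :
    eval (Pi.single k (1 : ℂ)) (C (c 0) * X 0 + C (c 1) * X 1 + C (c 2) * X 2 : S) = c k := by
  fin_cases k <;> simp

theorem vv_indep {F g : S} (hF : F.IsHomogeneous 3) (hg : g.IsHomogeneous 4) (hF0 : F ≠ 0)
    (hnd : ¬ F ∣ g) : LinearIndependent ℂ (vv hF hg) := by
  rw [Fintype.linearIndependent_iff]
  intro c hc
  have h1 : (C (c 0) * X 0 + C (c 1) * X 1 + C (c 2) * X 2) * F + C (c 3) * g = 0 := by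
    have h2 := congrArg (fun x : V4 => (x : S)) hc
    simp only [Fin.sum_univ_four, Submodule.coe_add, Submodule.coe_smul, vv0, vv1, vv2, vv3,
      smul_eq_C_mul, ZeroMemClass.coe_zero] at h2
    rw [← h2]
    ring
  have h3 : c 3 = 0 := by
    by_contra hne
    apply hnd
    have h4 : C (c 3) * g = F * (-(C (c 0) * X 0 + C (c 1) * X 1 + C (c 2) * X 2)) := by
      linear_combination h1
    have h5 : F ∣ C (c 3) * g := ⟨_, h4⟩
    have h6 : IsUnit (C (c 3) : S) := (isUnit_iff_ne_zero.mpr hne).map C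
    exact (h6.dvd_mul_left).mp h5
  rw [h3, C_0, zero_mul, add_zero] at h1
  have h4 : (C (c 0) * X 0 + C (c 1) * X 1 + C (c 2) * X 2 : S) = 0 :=
    (mul_eq_zero.mp h1).resolve_right hF0
  have h5 : ∀ k : Fin 3, c k.castSucc = 0 := by
    intro k
    have h6 := lin_eval_single (fun k : Fin 3 => c k.castSucc) k
    have h7 : C ((fun k : Fin 3 => c k.castSucc) 0) * X 0 + C ((fun k : Fin 3 => c k.castSucc) 1) * X 1 +
        C ((fun k : Fin 3 => c k.castSucc) 2) * X 2 = (0 : S) := h4
    rw [h7, map_zero] at h6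
    exact h6.symm
  intro i
  fin_cases i
  · exact h5 0
  · exact h5 1
  · exact h5 2
  · exact h3

/-- a form of degree one -/
theorem hom_one {a : S} (ha : a.IsHomogeneous 1) :
    ∃ c : Fin 3 → ℂ, a = C (c 0) * X 0 + C (c 1) * X 1 + C (c 2) * X 2 := by
  have h1 := ha.sum_X_mul_pderiv
  have h2 : ∀ k : Fin 3, ∃ c : ℂ, pderiv k a = C c := by
    intro k
    have h3 : (pderiv k a).IsHomogeneous 0 := ha.pderiv
    have h4 := (totalDegree_zero_iff_isHomogeneous (p := pderiv k a)).mpr h3
    exact ⟨_, totalDegree_eq_zero_iff_eq_C.mp h4⟩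
  choose c hc using h2
  refine ⟨c, ?_⟩
  rw [Fin.sum_univ_three, hc, hc, hc, one_smul] at h1
  rw [← h1]
  ring

/-- the quartic forms through the eleven points -/
theorem mem_span {F g : S} (h2 : S_CB) {Q : Fin 12 → Fin 3 → ℂ} (T : Twelve F g Q) (h : V4)
    (hz : ∀ i, i ≠ Fin.last 11 → eval (Q i) (h : S) = 0) :
    ∃ c : Fin 4 → ℂ, h = ∑ j, c j • vv T.hF T.hg j := by
  obtain ⟨a, β, hab, -⟩ := h2 F g Q T 4 h le_rfl ((mem_homogeneousSubmodule _ _).1 h.2) hz
  have hF0 : F ≠ 0 := T.irr.ne_zero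
  have hom : (a * F).IsHomogeneous (1 + 3) := by
    have h3 : a * F = (h : S) - C β * g := by
      rw [hab]
      ring
    rw [h3]
    have h4 : (h : S).IsHomogeneous 4 := (mem_homogeneousSubmodule _ _).1 h.2
    have h5 : (C β * g).IsHomogeneous 4 := by
      have := (isHomogeneous_C (Fin 3) β).mul T.hg
      simpa using this
    exact h4.sub h5
  have ha := Pool.Agent.H549.MX.hom_factor T.hF hF0 hom
  obtain ⟨c, hc⟩ := hom_one ha
  refine ⟨![c 0, c 1, c 2, β], ?_⟩
  apply Subtype.ext
  rw [hab, hc]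
  simp only [Fin.sum_univ_four, Submodule.coe_add, Submodule.coe_smul, vv0, vv1, vv2, vv3,
    smul_eq_C_mul, Matrix.cons_val_zero, Matrix.cons_val_one, Matrix.cons_val]
  ring

/-- **S_GC** -/
theorem GC (h1 : S_TRV) (h2 : S_CB) : S_GC := by
  intro F g P p T
  have hF0 : F ≠ 0 := T.irr.ne_zero
  have hind := vv_indep T.hF T.hg hF0 T.ndvd
  -- the functionals
  let ι : (Fin 4 → ℂ) →ₗ[ℂ] V4 := Fintype.linearCombination ℂ (vv T.hF T.hg)
  have hι : LinearMap.ker ι = ⊥ := by
    rw [LinearMap.ker_eq_bot']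
    intro c hc
    rw [Fintype.linearIndependent_iff] at hind
    funext i
    exact hind c (by simpa [ι, Fintype.linearCombination_apply] using hc) i
  obtain ⟨w, hw⟩ := LinearMap.exists_leftInverse_of_injective ι hι
  have hw' : ∀ c : Fin 4 → ℂ, w (∑ j, c j • vv T.hF T.hg j) = c := by
    intro c
    have := LinearMap.congr_fun hw c
    simpa [ι, Fintype.linearCombination_apply] using this
  -- the matrix at `P` is invertible
  have hdet : (matE w P).det ≠ 0 := by
    intro h0
    obtain ⟨v, hv, hv0⟩ := Matrix.exists_mulVec_eq_zero_iff.mpr h0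
    let h : V4 := ∑ m, v m • bas m
    have hcoe : (h : S) = ∑ m, v m • (bas m : S) := by simp [h]
    have hE : ∀ i : Fin 11, eval (P i) (h : S) = 0 := by
      intro i
      have h3 := congrFun hv0 (Sum.inl i)
      rw [hcoe, map_sum]
      simp only [Matrix.mulVec, dotProduct, matE_inl, Pi.zero_apply] at h3
      rw [← h3]
      apply Finset.sum_congr rfl
      intro m _
      rw [smul_eval, mul_comm]
    have hW : w h = 0 := by
      funext j
      have h3 := congrFun hv0 (Sum.inr j)
      simp only [Matrix.mulVec, dotProduct, matE_inr, Pi.zero_apply] at h3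
      simp only [h, map_sum, map_smul, Finset.sum_apply, Pi.smul_apply, smul_eq_mul, Pi.zero_apply]
      rw [← h3]
      apply Finset.sum_congr rfl
      intro m _
      rw [mul_comm]
    obtain ⟨c, hc⟩ := mem_span h2 T h (by
      intro i hi
      obtain ⟨i', rfl⟩ := Fin.exists_castSucc_eq.mpr hi
      rw [Fin.snoc_castSucc]
      exact hE i')
    have hc0 : c = 0 := by
      rw [← hw' c, ← hc, hW]
    have hh0 : h = 0 := by
      rw [hc, hc0]
      simp
    apply hv
    have hb := bas.linearIndependent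
    rw [Fintype.linearIndependent_iff] at hb
    funext m
    exact hb v hh0 m
  -- the quartic at `P` is a multiple of `g`
  have hgmem : g ∈ V4 := (mem_homogeneousSubmodule _ _).2 T.hg
  have hqf : (qf w P : S) = C (matE w P).det * g := by
    let γ : I15 → ℂ := fun m => bas.repr ⟨g, hgmem⟩ m
    have hγ : ∑ m, γ m • bas m = ⟨g, hgmem⟩ := bas.sum_repr _
    have hA : (matE w P).mulVec γ = Pi.single (Sum.inr 3) 1 := by
      funext x
      rcases x with i | j
      · simp only [Matrix.mulVec, dotProduct, matE_inl]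
        have h3 : eval (P i) g = ∑ m, eval (P i) (bas m : S) * γ m := by
          have h4 := congrArg (fun x : V4 => eval (P i) (x : S)) hγ
          simp only [Submodule.coe_sum, Submodule.coe_smul, map_sum, smul_eval] at h4
          rw [← h4]
          apply Finset.sum_congr rfl
          intro m _
          rw [mul_comm]
        rw [← h3]
        have h4 := T.zerog i.castSucc
        rw [Fin.snoc_castSucc] at h4
        rw [h4]
        simp
      · simp only [Matrix.mulVec, dotProduct, matE_inr]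
        have h3 : w ⟨g, hgmem⟩ j = ∑ m, w (bas m) j * γ m := by
          have h4 := congrArg (fun x : V4 => w x j) hγ
          simp only [map_sum, map_smul, Finset.sum_apply, Pi.smul_apply, smul_eq_mul] at h4
          rw [← h4]
          apply Finset.sum_congr rfl
          intro m _
          rw [mul_comm]
        rw [← h3]
        have h5 : (⟨g, hgmem⟩ : V4) = ∑ j, (Pi.single 3 1 : Fin 4 → ℂ) j • vv T.hF T.hg j := by
          rw [Finset.sum_eq_single 3]
          · simp only [Pi.single_eq_same, one_smul]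
            exact Subtype.ext rfl
          · intro j _ hj
            rw [Pi.single_eq_of_ne hj, zero_smul]
          · intro hh
            exact absurd (Finset.mem_univ _) hh
        rw [h5, hw']
        by_cases hj : j = 3
        · subst hj
          simp
        · rw [Pi.single_eq_of_ne hj, Pi.single_eq_of_ne]
          intro hh
          exact hj (Sum.inr_injective hh)
    have hcol : ∀ m, (matE w P).adjugate m (Sum.inr 3) = (matE w P).det * γ m := by
      intro m
      have h3 := congrFun (congrArg (fun v => (matE w P).adjugate.mulVec v) hA) m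
      simp only [Matrix.mulVec_mulVec, Matrix.adjugate_mul, Matrix.smul_mulVec, Matrix.one_mulVec,
        Pi.smul_apply, smul_eq_mul] at h3
      rw [h3]
      simp
    rw [qf_coe]
    simp_rw [hcol]
    have h6 := congrArg (fun x : V4 => (x : S)) hγ
    simp only [Submodule.coe_sum, Submodule.coe_smul] at h6
    rw [← h6, Finset.mul_sum]
    apply Finset.sum_congr rfl
    intro m _
    rw [mul_smul, smul_eq_C_mul _ (matE w P).det]
  -- the vectors `r`
  have hr : ∀ i : Fin 11, ∃ r : Fin 3 → ℂ, r ⬝ᵥ P i ≠ 0 := by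
    intro i
    have hne := T.ne i.castSucc
    rw [Fin.snoc_castSucc] at hne
    obtain ⟨k, hk⟩ := Function.ne_iff.1 hne
    refine ⟨Pi.single k 1, ?_⟩
    rw [single_one_dotProduct]
    exact hk
  choose r hr using hr
  refine ⟨Phi F w r, ?_, ?_⟩
  · rw [pt_ext, eval_Phi]
    apply mul_ne_zero hdet
    rw [Finset.prod_ne_zero_iff]
    intro i _
    have h3 := (h1 F g _ T).2 i.castSucc (r i)
    rw [Fin.snoc_castSucc] at h3
    have h4 := h3 (hr i)
    have h5 : grad (qf w P : S) (P i) = (matE w P).det • grad g (P i) := by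
      funext k
      unfold grad
      rw [hqf, pderiv_C_mul]
      simp
    rw [h5]
    have h6 : (Matrix.of ![r i, grad F (P i), (matE w P).det • grad g (P i)]).det =
        (matE w P).det * (Matrix.of ![r i, grad F (P i), grad g (P i)]).det := by
      rw [Matrix.det_fin_three, Matrix.det_fin_three]
      simp only [Matrix.of_apply, Matrix.cons_val_zero, Matrix.cons_val_one,
        Matrix.cons_val, Pi.smul_apply, smul_eq_mul]
      ring
    rw [h6]
    exact mul_ne_zero hdet h4
  · intro P' hz hne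
    exact ⟨_, eleven_of_Phi T.hF T.irr w r P' hz hne⟩

end Pool.Agent.H824.MX
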